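import Mathlib
import Pool.Agent.W811.LW.Stm

set_option autoImplicit false

namespace Pool.Agent.W814.LW

open Pool.Agent.W811.LW

theorem cross_bd (a b c d x k : ℝ) (ha : |a| ≤ x) (hb : |b| ≤ k) (hc : |c| ≤ x) (hd : |d| ≤ k) :
    |a * b - c * d| ≤ 2 * x * k := by
  have hx : 0 ≤ x := (abs_nonneg a).trans ha
  have h1 : |a * b| ≤ x * k := by
    rw [abs_mul]; exact mul_le_mul ha hb (abs_nonneg _) hx
  have h2 : |c * d| ≤ x * k := by
    rw [abs_mul]; exact mul_le_mul hc hd (abs_nonneg _) hx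
  calc |a * b - c * d| ≤ |a * b| + |c * d| := abs_sub _ _
    _ ≤ 2 * x * k := by linarith

theorem split (q q' p p' : ℤ) (hq : q ≠ 0) (h : q * p' = p * q') :
    ∃ g a b r : ℤ, 0 < g ∧ q = g * a ∧ q' = g * b ∧ a ≠ 0 ∧ p = a * r ∧ p' = b * r := by
  have hg : 0 < Int.gcd q q' := Int.gcd_pos_of_ne_zero_left _ hq
  obtain ⟨a, b, hab, ha, hb⟩ := Int.exists_gcd_one hg
  set g : ℤ := (Int.gcd q q' : ℤ) with hgdef
  have hg0 : 0 < g := by rw [hgdef]; exact_mod_cast hg
  have ha0 : a ≠ 0 := by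
    rintro rfl
    exact hq (by rw [ha]; ring)
  have hcop : IsCoprime a b := Int.isCoprime_iff_gcd_eq_one.2 hab
  have h2 : a * p' = p * b := by
    have : g * (a * p') = g * (p * b) := by
      calc g * (a * p') = (a * g) * p' := by ring
        _ = q * p' := by rw [← ha]
        _ = p * q' := h
        _ = p * (b * g) := by rw [← hb]
        _ = g * (p * b) := by ring
    exact mul_left_cancel₀ hg0.ne' this
  have hdvd : a ∣ p := hcop.dvd_of_dvd_mul_right ⟨p', h2.symm⟩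
  obtain ⟨r, hr⟩ := hdvd
  refine ⟨g, a, b, r, hg0, by rw [mul_comm]; exact ha, by rw [mul_comm]; exact hb, ha0, hr, ?_⟩
  have : a * p' = a * (b * r) := by rw [h2, hr]; ring
  exact mul_left_cancel₀ ha0 this

theorem dvl : DVL := by
  intro D c0 α β j t m y v w hD hc0 hc1 hbad hba hy hv hw hcr hNv hNw
  obtain ⟨q, p1, p2⟩ := v
  obtain ⟨q', p1', p2'⟩ := w
  have hDr : (2 : ℝ) ≤ (D : ℝ) := by exact_mod_cast hD
  have hD0 : (0 : ℝ) < (D : ℝ) := by linarith
  have hD1 : (1 : ℝ) ≤ (D : ℝ) := by linarith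
  set T : ℝ := (D : ℝ) ^ t with hT
  set J : ℝ := (D : ℝ) ^ (2 * j) with hJ
  set M : ℝ := (D : ℝ) ^ (2 * m) with hM
  have hT0 : 0 < T := pow_pos hD0 _
  have hJ0 : 0 < J := pow_pos hD0 _
  have hM0 : 0 < M := pow_pos hD0 _
  have hM1 : 1 ≤ M := one_le_pow₀ hD1
  have hJT : (D : ℝ) ^ (2 * j + t) = J * T := pow_add _ _ _
  set x : ℝ := J / M with hx
  have hx0 : 0 < x := div_pos hJ0 hM0
  have hxJ : x ≤ J := div_le_self hJ0.le hM1
  set Z : ℝ := 8 * (D : ℝ) ^ 4 with hZ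
  have hZ0 : 0 < Z := by positivity
  -- the data
  have hq : q ≠ 0 := hv.1
  have hq' : q' ≠ 0 := hw.1
  have hv1 : |(q : ℝ) * α - p1| * M ≤ 1 := hv.2
  have hw1 : |(q' : ℝ) * α - p1'| * M ≤ 1 := hw.2
  have hNv' : max |T * ((q : ℝ) * β - p2)| |(q : ℝ) / (J * T)| ≤ Z * y := by
    have := hNv
    simp only [NN, aV, bV] at this
    rw [hJT] at this
    exact this
  have hNw' : max |T * ((q' : ℝ) * β - p2')| |(q' : ℝ) / (J * T)| ≤ Z * y := by
    have := hNw
    simp only [NN, aV, bV] at this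
    rw [hJT] at this
    exact this
  have hu2 := (le_max_left _ _).trans hNv'
  have hu3 := (le_max_right _ _).trans hNv'
  have hw2 := (le_max_left _ _).trans hNw'
  have hw3 := (le_max_right _ _).trans hNw'
  have hu1 : |J * ((q : ℝ) * α - p1)| ≤ x := by
    rw [abs_mul, abs_of_pos hJ0, hx, le_div_iff₀ hM0]
    nlinarith
  have hw1' : |J * ((q' : ℝ) * α - p1')| ≤ x := by
    rw [abs_mul, abs_of_pos hJ0, hx, le_div_iff₀ hM0]
    nlinarith
  set A : ℤ := p1 * p2' - p2 * p1' with hA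
  set B : ℤ := p2 * q' - q * p2' with hB
  set C : ℤ := q * p1' - p1 * q' with hC
  have hcr' : ((A, B, C) : V3) ≠ (0, 0, 0) := hcr
  have hAr : (A : ℝ) = p1 * p2' - p2 * p1' := by rw [hA]; push_cast; ring
  have hBr : (B : ℝ) = p2 * q' - q * p2' := by rw [hB]; push_cast; ring
  have hCr : (C : ℝ) = q * p1' - p1 * q' := by rw [hC]; push_cast; ring
  have haW : |J * T * ((A : ℝ) + B * α + C * β)| ≤ 2 * x * (Z * y) := by
    have h := cross_bd _ _ _ _ x (Z * y) hu1 hw2 hw1' hu2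
    have e : J * ((q : ℝ) * α - p1) * (T * ((q' : ℝ) * β - p2')) -
        J * ((q' : ℝ) * α - p1') * (T * ((q : ℝ) * β - p2)) =
        J * T * ((A : ℝ) + B * α + C * β) := by
      rw [hAr, hBr, hCr]; ring
    rw [e] at h
    exact h
  have hbW : |(C : ℝ) / T| ≤ 2 * x * (Z * y) := by
    have h := cross_bd _ _ _ _ x (Z * y) hu1 hw3 hw1' hu3
    have e : J * ((q : ℝ) * α - p1) * ((q' : ℝ) / (J * T)) -
        J * ((q' : ℝ) * α - p1') * ((q : ℝ) / (J * T)) = (C : ℝ) / T := by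
      rw [hCr]; field_simp; ring
    rw [e] at h
    exact h
  have hBb : |(B : ℝ)| ≤ 128 * (D : ℝ) ^ 8 * y ^ 2 * J := by
    have h := cross_bd _ _ _ _ (Z * y) (Z * y) hw2 hu3 hu2 hw3
    have e : T * ((q' : ℝ) * β - p2') * ((q : ℝ) / (J * T)) -
        T * ((q : ℝ) * β - p2) * ((q' : ℝ) / (J * T)) = (B : ℝ) / J := by
      rw [hBr]; field_simp; ring
    rw [e, abs_div, abs_of_pos hJ0, div_le_iff₀ hJ0] at h
    calc |(B : ℝ)| ≤ 2 * (Z * y) * (Z * y) * J := h
      _ = 128 * (D : ℝ) ^ 8 * y ^ 2 * J := by rw [hZ]; ring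
  by_cases hC0 : C = 0
  · -- first case
    left
    have hB0 : B ≠ 0 := by
      intro hB0
      have h3 : q * A + p1 * B + p2 * C = 0 := by rw [hA, hB, hC]; ring
      rw [hB0, hC0] at h3
      have h4 : q * A = 0 := by linarith
      rcases mul_eq_zero.1 h4 with h5 | h5
      · exact hq h5
      · exact hcr' (by rw [h5, hB0, hC0])
    obtain ⟨g, a, b, r, hg, hqa, hqb, ha0, hp1, hp1'⟩ := split q q' p1 p1' hq (by
      have : q * p1' - p1 * q' = 0 := hC0
      linarith)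
    have hBg : B = g * (p2 * b - a * p2') := by rw [hB, hqb, hqa]; ring
    have hgB : (g : ℝ) ≤ |(B : ℝ)| := by
      have h1 : g ≤ |B| := by
        apply Int.le_of_dvd (abs_pos.2 hB0)
        rw [dvd_abs]
        exact ⟨_, hBg⟩
      have h2 : (g : ℝ) ≤ ((|B| : ℤ) : ℝ) := by exact_mod_cast h1
      rwa [Int.cast_abs] at h2
    have hgr : (0 : ℝ) < g := by exact_mod_cast hg
    have hab := hbad g r hg
    have ha1 : (1 : ℝ) ≤ |(a : ℝ)| := by
      have : (1 : ℤ) ≤ |a| := Int.one_le_abs ha0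
      have h2 : ((1 : ℤ) : ℝ) ≤ ((|a| : ℤ) : ℝ) := by exact_mod_cast this
      rw [Int.cast_abs] at h2
      simpa using h2
    have hle : |(g : ℝ) * α - r| ≤ |(q : ℝ) * α - p1| := by
      have e : (q : ℝ) * α - p1 = a * ((g : ℝ) * α - r) := by
        rw [hqa, hp1]; push_cast; ring
      rw [e, abs_mul]
      nlinarith [abs_nonneg ((g : ℝ) * α - r)]
    have h5 : |(g : ℝ) * α - r| * M ≤ 1 := by nlinarith
    have h6 : c0 * M ≤ g := by
      calc c0 * M ≤ ((g : ℝ) * |(g : ℝ) * α - r|) * M := by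
            exact mul_le_mul_of_nonneg_right hab hM0.le
        _ = g * (|(g : ℝ) * α - r| * M) := by ring
        _ ≤ g * 1 := mul_le_mul_of_nonneg_left h5 hgr.le
        _ = g := by ring
    have h7 : c0 * M ≤ 128 * (D : ℝ) ^ 8 * y ^ 2 * J := h6.trans (hgB.trans hBb)
    have h8 : c0 ≤ 128 * (D : ℝ) ^ 8 * (x * y ^ 2) := by
      have e : 128 * (D : ℝ) ^ 8 * (x * y ^ 2) = (128 * (D : ℝ) ^ 8 * y ^ 2 * J) / M := by
        rw [hx]; field_simp
      rw [e, le_div_iff₀ hM0]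
      exact h7
    rw [div_le_iff₀ (by positivity)]
    have h9 : 128 * (D : ℝ) ^ 8 ≤ 1024 * (D : ℝ) ^ 10 := by
      have : (D : ℝ) ^ 8 ≤ (D : ℝ) ^ 10 := pow_le_pow_right₀ hD1 (by norm_num)
      nlinarith [pow_pos hD0 8]
    calc c0 ≤ 128 * (D : ℝ) ^ 8 * (x * y ^ 2) := h8
      _ ≤ 1024 * (D : ℝ) ^ 10 * (x * y ^ 2) :=
        mul_le_mul_of_nonneg_right h9 (by positivity)
      _ = x * y ^ 2 * (1024 * (D : ℝ) ^ 10) := by ring
  · by_cases hB0 : B = 0
    · -- second case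
      left
      obtain ⟨g, a, b, r, hg, hqa, hqb, ha0, hp2, hp2'⟩ := split q q' p2 p2' hq (by
        have : p2 * q' - q * p2' = 0 := hB0
        linarith)
      have hgr : (0 : ℝ) < g := by exact_mod_cast hg
      set e : ℤ := a * p1' - p1 * b with he
      have hCe : C = g * e := by rw [hC, he, hqa, hqb]; ring
      have hAe : A = -(r * e) := by rw [hA, he, hp2, hp2']; ring
      have he0 : e ≠ 0 := by
        intro h0
        exact hC0 (by rw [hCe, h0]; ring)
      have he1 : (1 : ℝ) ≤ |(e : ℝ)| := by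
        have : (1 : ℤ) ≤ |e| := Int.one_le_abs he0
        have h2 : ((1 : ℤ) : ℝ) ≤ ((|e| : ℤ) : ℝ) := by exact_mod_cast this
        rw [Int.cast_abs] at h2
        simpa using h2
      have e1 : J * T * ((A : ℝ) + B * α + C * β) = e * (J * T * ((g : ℝ) * β - r)) := by
        rw [hAe, hB0, hCe]; push_cast; ring
      have e2 : (C : ℝ) / T = e * ((g : ℝ) / T) := by
        rw [hCe]; push_cast; ring
      have h1 : J * T * |(g : ℝ) * β - r| ≤ 2 * x * (Z * y) := by
        rw [e1, abs_mul, abs_mul (J * T), abs_of_pos (mul_pos hJ0 hT0)] at haW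
        have : 0 ≤ J * T * |(g : ℝ) * β - r| := by positivity
        nlinarith
      have h2 : (g : ℝ) / T ≤ 2 * x * (Z * y) := by
        rw [e2, abs_mul, abs_of_pos (div_pos hgr hT0)] at hbW
        have : 0 ≤ (g : ℝ) / T := by positivity
        nlinarith
      set Dj : ℝ := (D : ℝ) ^ j with hDj
      have hDj0 : 0 < Dj := pow_pos hD0 _
      have hJj : J = Dj * Dj := by rw [hJ, hDj, ← pow_add]; congr 1; omega
      have h3 : Dj / (2 * D) ≤ 2 * x * (Z * y) := by
        have hb := hba g r hg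
        rw [pow_add] at hb
        rcases le_max_iff.1 hb with h | h
        · have h' : 1 / (2 * (D : ℝ)) ≤ (g : ℝ) / (Dj * T) := h
          calc Dj / (2 * D) = Dj * (1 / (2 * D)) := by ring
            _ ≤ Dj * ((g : ℝ) / (Dj * T)) := mul_le_mul_of_nonneg_left h' hDj0.le
            _ = (g : ℝ) / T := by field_simp
            _ ≤ _ := h2
        · have h' : 1 / (2 * (D : ℝ)) ≤ Dj * T * |(g : ℝ) * β - r| := h
          calc Dj / (2 * D) = Dj * (1 / (2 * D)) := by ring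
            _ ≤ Dj * (Dj * T * |(g : ℝ) * β - r|) := mul_le_mul_of_nonneg_left h' hDj0.le
            _ = J * T * |(g : ℝ) * β - r| := by rw [hJj]; ring
            _ ≤ _ := h1
      have h4 : (Dj / (2 * D)) ^ 2 ≤ (2 * x * (Z * y)) ^ 2 := by
        apply pow_le_pow_left₀ (by positivity) h3
      have h5 : J / (4 * (D : ℝ) ^ 2) ≤ 4 * Z ^ 2 * (x * y ^ 2) * J := by
        have e3 : (Dj / (2 * D)) ^ 2 = J / (4 * (D : ℝ) ^ 2) := by
          rw [hJj]; field_simp; ring
        rw [e3] at h4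
        calc J / (4 * (D : ℝ) ^ 2) ≤ (2 * x * (Z * y)) ^ 2 := h4
          _ = 4 * Z ^ 2 * (x * y ^ 2) * x := by ring
          _ ≤ 4 * Z ^ 2 * (x * y ^ 2) * J := mul_le_mul_of_nonneg_left hxJ (by positivity)
      have h6 : 1 / (4 * (D : ℝ) ^ 2) ≤ 4 * Z ^ 2 * (x * y ^ 2) := by
        have : J * (1 / (4 * (D : ℝ) ^ 2)) ≤ J * (4 * Z ^ 2 * (x * y ^ 2)) := by
          calc J * (1 / (4 * (D : ℝ) ^ 2)) = J / (4 * (D : ℝ) ^ 2) := by ring
            _ ≤ _ := h5
            _ = _ := by ring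
        exact le_of_mul_le_mul_left this hJ0
      rw [div_le_iff₀ (by positivity)] at h6
      rw [div_le_iff₀ (by positivity)]
      calc c0 ≤ 1 := hc1
        _ ≤ 4 * Z ^ 2 * (x * y ^ 2) * (4 * (D : ℝ) ^ 2) := h6
        _ = x * y ^ 2 * (1024 * (D : ℝ) ^ 10) := by rw [hZ]; ring
    · -- third case
      right
      set W : ℝ := 128 * (D : ℝ) ^ 8 * y ^ 2 * J with hW
      have hB1 : (1 : ℝ) ≤ |(B : ℝ)| := by
        have : (1 : ℤ) ≤ |B| := Int.one_le_abs hB0
        have h2 : ((1 : ℤ) : ℝ) ≤ ((|B| : ℤ) : ℝ) := by exact_mod_cast this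
        rw [Int.cast_abs] at h2
        simpa using h2
      have hW1 : 1 ≤ W := hB1.trans hBb
      have hex : ∃ n : ℕ, W ≤ (D : ℝ) ^ (2 * n) := by
        obtain ⟨n, hn⟩ := pow_unbounded_of_one_lt W (show (1 : ℝ) < (D : ℝ) by linarith)
        exact ⟨n, hn.le.trans (pow_le_pow_right₀ hD1 (by omega))⟩
      classical
      set m' := Nat.find hex with hm'
      have hm1 : W ≤ (D : ℝ) ^ (2 * m') := Nat.find_spec hex
      have hm2 : (D : ℝ) ^ (2 * m') ≤ (D : ℝ) ^ 2 * W := by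
        rcases Nat.eq_zero_or_pos m' with h0 | h0
        · rw [h0]
          have : (1 : ℝ) ≤ (D : ℝ) ^ 2 := one_le_pow₀ hD1
          simp only [mul_zero, pow_zero]
          nlinarith
        · have h1 : ¬ W ≤ (D : ℝ) ^ (2 * (m' - 1)) := Nat.find_min hex (by omega)
          have h2 : (D : ℝ) ^ (2 * m') = (D : ℝ) ^ 2 * (D : ℝ) ^ (2 * (m' - 1)) := by
            rw [← pow_add]; congr 1; omega
          rw [h2]
          exact mul_le_mul_of_nonneg_left (not_le.1 h1).le (by positivity)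
      refine ⟨m', ?_, ?_⟩
      · rw [div_le_iff₀ hJ0]
        calc (D : ℝ) ^ (2 * m') ≤ (D : ℝ) ^ 2 * W := hm2
          _ = 128 * (D : ℝ) ^ 10 * y ^ 2 * J := by rw [hW]; ring
      · have hmem : ((A, B, C) : V3) ∈ famW (D : ℝ) m' := ⟨hB0, hC0, hBb.trans hm1⟩
        have hle : yW (D : ℝ) α j t β m' ≤ NN (aW (D : ℝ) j t α β) (bW (D : ℝ) t) (A, B, C) := by
          apply csInf_le
          · refine ⟨0, ?_⟩
            rintro _ ⟨u, _, rfl⟩
            exact (abs_nonneg _).trans (le_max_left _ _)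
          · exact ⟨_, hmem, rfl⟩
        refine hle.trans ?_
        simp only [NN, aW, bW]
        rw [hJT]
        have e : 16 * (D : ℝ) ^ 4 * x * y = 2 * x * (Z * y) := by rw [hZ]; ring
        rw [e]
        exact max_le haW hbW

end Pool.Agent.W814.LW
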